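import Pool.Agent.H84.SM.Targets

/-!
# Row IRR of the board `smc_modules`: a smooth plane curve is irreducible

Two forms of positive degree in three variables have a common zero (Krull's height theorem).
-/

set_option autoImplicit false

namespace Pool.Agent.H96.SM

open MvPolynomial Pool.Agent.H84.SM

section Homog

/-! Divisors of forms are forms (copied from `H47/EE/LPA`, helper47). -/

variable {K σ : Type} [Field K]

/-- the polynomial `p (t X)` -/
noncomputable def tt : MvPolynomial σ K →ₐ[K] Polynomial (MvPolynomial σ K) :=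
  aeval fun i => Polynomial.C (X i) * Polynomial.X

theorem tt_monomial (s : σ →₀ ℕ) (c : K) :
    tt (monomial s c) = Polynomial.C (monomial s c) * Polynomial.X ^ s.degree := by
  unfold tt
  rw [aeval_monomial]
  have h1 : (algebraMap K (Polynomial (MvPolynomial σ K))) c = Polynomial.C (C c) := by
    rw [IsScalarTower.algebraMap_apply K (MvPolynomial σ K) (Polynomial (MvPolynomial σ K)),
      Polynomial.algebraMap_apply, Algebra.algebraMap_self, RingHom.id_apply,
      MvPolynomial.algebraMap_eq]
  rw [h1, Finsupp.prod]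
  simp only [mul_pow, Finset.prod_mul_distrib, Finset.prod_pow_eq_pow_sum]
  rw [monomial_eq, Finsupp.prod, Polynomial.C_mul, map_prod]
  simp only [Polynomial.C_pow]
  rw [mul_assoc]
  rfl

theorem coeff_tt (p : MvPolynomial σ K) (m : ℕ) :
    (tt p).coeff m = homogeneousComponent m p := by
  conv_lhs => rw [p.as_sum, map_sum]
  rw [Polynomial.finsetSum_coeff, homogeneousComponent_apply, Finset.sum_filter]
  refine Finset.sum_congr rfl fun s _ => ?_
  rw [tt_monomial, Polynomial.coeff_C_mul, Polynomial.coeff_X_pow]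
  by_cases h : m = s.degree
  · rw [if_pos h, if_pos h.symm, mul_one]
  · rw [if_neg h, if_neg (Ne.symm h), mul_zero]

theorem tt_ne {p : MvPolynomial σ K} (hp : p ≠ 0) : tt p ≠ 0 := by
  intro h
  apply hp
  rw [← sum_homogeneousComponent p]
  refine Finset.sum_eq_zero fun i _ => ?_
  rw [← coeff_tt, h, Polynomial.coeff_zero]

/-- divisors of forms are forms -/
theorem homog_mul {p q : MvPolynomial σ K} {a : ℕ} (hG : (p * q).IsHomogeneous a)
    (hp : p ≠ 0) (hq : q ≠ 0) :
    ∃ b c : ℕ, b + c = a ∧ p.IsHomogeneous b ∧ q.IsHomogeneous c := by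
  have hG1 : tt (p * q) = Polynomial.C (p * q) * Polynomial.X ^ a := by
    ext1 m
    rw [coeff_tt, Polynomial.coeff_C_mul, Polynomial.coeff_X_pow,
      homogeneousComponent_of_mem ((mem_homogeneousSubmodule a _).2 hG)]
    by_cases h : m = a
    · rw [if_pos h, if_pos h, mul_one]
    · rw [if_neg h, if_neg h, mul_zero]
  rw [map_mul] at hG1
  have h1 : (tt p).natDegree + (tt q).natDegree = a := by
    rw [← Polynomial.natDegree_mul (tt_ne hp) (tt_ne hq), hG1,
      Polynomial.natDegree_C_mul_X_pow _ _ (mul_ne_zero hp hq)]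
  have h2 : (tt p).natTrailingDegree + (tt q).natTrailingDegree = a := by
    rw [← Polynomial.natTrailingDegree_mul (tt_ne hp) (tt_ne hq), hG1,
      Polynomial.natTrailingDegree_mul_X_pow (by
        rw [Ne, Polynomial.C_eq_zero]; exact mul_ne_zero hp hq), Polynomial.natTrailingDegree_C,
      zero_add]
  have h3 := Polynomial.natTrailingDegree_le_natDegree (tt p)
  have h4 := Polynomial.natTrailingDegree_le_natDegree (tt q)
  have key : ∀ r : MvPolynomial σ K, (tt r).natTrailingDegree = (tt r).natDegree →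
      r.IsHomogeneous (tt r).natDegree := by
    intro r hr
    have h5 : homogeneousComponent (tt r).natDegree r = r := by
      conv_rhs => rw [← sum_homogeneousComponent r]
      by_cases h0 : (tt r).natDegree ∈ Finset.range (r.totalDegree + 1)
      · rw [Finset.sum_eq_single_of_mem _ h0]
        intro m _ hm
        rw [← coeff_tt]
        rcases lt_or_gt_of_ne hm with h | h
        · exact Polynomial.coeff_eq_zero_of_lt_natTrailingDegree (by omega)
        · exact Polynomial.coeff_eq_zero_of_natDegree_lt h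
      · rw [Finset.mem_range, not_lt] at h0
        rw [homogeneousComponent_eq_zero _ _ (by omega)]
        symm
        refine Finset.sum_eq_zero fun m hm => ?_
        rw [Finset.mem_range] at hm
        rw [← coeff_tt]
        exact Polynomial.coeff_eq_zero_of_lt_natTrailingDegree (by omega)
    rw [← h5]
    have := homogeneousComponent_isHomogeneous (tt r).natDegree r
    rwa [h5] at this ⊢
  exact ⟨_, _, h1, key p (by omega), key q (by omega)⟩

end Homog

variable {k : Type} [Field k]

theorem const_homog {P : MvPolynomial (Fin 3) k} {b : ℕ} (hP : P.IsHomogeneous b)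
    (hb : 1 ≤ b) : constantCoeff P = 0 := by
  rw [constantCoeff_eq]
  refine hP.coeff_eq_zero ?_
  rw [map_zero]
  omega

/-- the ideal of the origin is contained in every prime ideal which contains the variables -/
theorem ker_le_of_X_mem {Q : Ideal (MvPolynomial (Fin 3) k)} (h : ∀ i, X i ∈ Q) :
    RingHom.ker (constantCoeff : MvPolynomial (Fin 3) k →+* k) ≤ Q := by
  have h1 : ∀ f : MvPolynomial (Fin 3) k, f - C (constantCoeff f) ∈ Q := by
    intro f
    induction f using MvPolynomial.induction_on with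
    | C a => simp
    | add p q hp hq =>
      have h2 : p + q - C (constantCoeff (p + q)) =
          (p - C (constantCoeff p)) + (q - C (constantCoeff q)) := by
        rw [map_add, C_add]
        ring
      rw [h2]
      exact Q.add_mem hp hq
    | mul_X p i _ =>
      have h2 : p * X i - C (constantCoeff (p * X i)) = p * X i := by
        rw [map_mul, constantCoeff_X, mul_zero, C_0, sub_zero]
      rw [h2]
      exact Q.mul_mem_left _ (h i)
  intro f hf
  have h2 := h1 f
  rw [RingHom.mem_ker] at hf
  rw [hf, C_0, sub_zero] at h2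
  exact h2

/-- the height of the ideal of the origin is at least three -/
theorem three_le_height :
    (3 : ℕ∞) ≤ (RingHom.ker (constantCoeff : MvPolynomial (Fin 3) k →+* k)).height := by
  set φ1 : MvPolynomial (Fin 3) k →ₐ[k] MvPolynomial (Fin 3) k :=
    aeval ![0, X 1, X 2] with hφ1
  set φ2 : MvPolynomial (Fin 3) k →ₐ[k] MvPolynomial (Fin 3) k :=
    aeval ![0, 0, X 2] with hφ2
  set p1 : Ideal (MvPolynomial (Fin 3) k) := RingHom.ker φ1.toRingHom with hp1
  set p2 : Ideal (MvPolynomial (Fin 3) k) := RingHom.ker φ2.toRingHom with hp2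
  set p3 : Ideal (MvPolynomial (Fin 3) k) :=
    RingHom.ker (constantCoeff : MvPolynomial (Fin 3) k →+* k) with hp3
  have i1 : p1.IsPrime := RingHom.ker_isPrime _
  have i2 : p2.IsPrime := RingHom.ker_isPrime _
  have i3 : p3.IsPrime := RingHom.ker_isPrime _
  have i0 : (⊥ : Ideal (MvPolynomial (Fin 3) k)).IsPrime := Ideal.isPrime_bot
  have m1 : ∀ f, f ∈ p1 ↔ φ1 f = 0 := fun f => Iff.rfl
  have m2 : ∀ f, f ∈ p2 ↔ φ2 f = 0 := fun f => Iff.rfl
  have m3 : ∀ f, f ∈ p3 ↔ constantCoeff f = 0 := fun f => Iff.rfl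
  have c12 : ∀ f, φ2 (φ1 f) = φ2 f := by
    intro f
    have h1 : φ2.comp φ1 = φ2 := by
      refine MvPolynomial.algHom_ext fun i => ?_
      fin_cases i <;> simp [hφ1, hφ2]
    exact DFunLike.congr_fun h1 f
  have c23 : ∀ f, constantCoeff (φ2 f) = constantCoeff f := by
    intro f
    have h1 : (constantCoeff : MvPolynomial (Fin 3) k →+* k).comp φ2.toRingHom =
        constantCoeff := by
      refine MvPolynomial.ringHom_ext (fun r => ?_) fun i => ?_
      · simp
      · fin_cases i <;> simp [hφ2]
    exact DFunLike.congr_fun h1 f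
  have l0 : (⊥ : Ideal (MvPolynomial (Fin 3) k)) < p1 := by
    refine lt_of_le_of_ne bot_le fun h => ?_
    have h1 : (X 0 : MvPolynomial (Fin 3) k) ∈ p1 := by
      rw [m1]
      simp [hφ1]
    rw [← h, Ideal.mem_bot] at h1
    exact X_ne_zero 0 h1
  have l1 : p1 < p2 := by
    refine lt_of_le_of_ne (fun f hf => ?_) fun h => ?_
    · rw [m2, ← c12, (m1 f).1 hf, map_zero]
    · have h1 : (X 1 : MvPolynomial (Fin 3) k) ∈ p2 := by
        rw [m2]
        simp [hφ2]
      rw [← h, m1] at h1
      simp [hφ1] at h1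
  have l2 : p2 < p3 := by
    refine lt_of_le_of_ne (fun f hf => ?_) fun h => ?_
    · rw [m3, ← c23, (m2 f).1 hf, map_zero]
    · have h1 : (X 2 : MvPolynomial (Fin 3) k) ∈ p3 := by
        rw [m3]
        simp
      rw [← h, m2] at h1
      simp [hφ2] at h1
  have s0 := Order.add_one_le_of_lt (Ideal.height_strict_mono_of_isPrime l0)
  have s1 := Order.add_one_le_of_lt (Ideal.height_strict_mono_of_isPrime l1)
  have s2 := Order.add_one_le_of_lt (Ideal.height_strict_mono_of_isPrime l2)
  calc (3 : ℕ∞) = 0 + 1 + 1 + 1 := by norm_num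
    _ ≤ (⊥ : Ideal (MvPolynomial (Fin 3) k)).height + 1 + 1 + 1 := by gcongr; exact zero_le
    _ ≤ p1.height + 1 + 1 := by gcongr
    _ ≤ p2.height + 1 := by gcongr
    _ ≤ p3.height := s2

theorem pf_IRR (hNUL : T_NUL) : T_IRR := by
  classical
  intro k _ _ _ G d hd hS
  obtain ⟨e0, he0⟩ := hNUL k G d hd hS 1
  have hG0 : G ≠ 0 := by
    intro h
    have h1 := hS.2 (fun _ => 1) (fun i => by rw [h]; simp)
    have h2 := congrFun h1 0
    simp at h2
  refine ⟨?_, ?_⟩
  · intro hu
    have h1 := hu.map (constantCoeff : MvPolynomial (Fin 3) k →+* k)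
    rw [const_homog hS.1 hd] at h1
    exact not_isUnit_zero h1
  · intro P Q hPQ
    have hP0 : P ≠ 0 := fun h => hG0 (by rw [hPQ, h, zero_mul])
    have hQ0 : Q ≠ 0 := fun h => hG0 (by rw [hPQ, h, mul_zero])
    obtain ⟨b, c, hbc, hPb, hQc⟩ := homog_mul (by rw [← hPQ]; exact hS.1) hP0 hQ0
    have hunit : ∀ R : MvPolynomial (Fin 3) k, R ≠ 0 → R.IsHomogeneous 0 → IsUnit R := by
      intro R hR hR0
      have h1 := totalDegree_eq_zero_iff_eq_C.1 ((totalDegree_zero_iff_isHomogeneous _).2 hR0)
      rw [h1]
      refine IsUnit.map C (IsUnit.mk0 _ fun h => hR ?_)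
      rw [h1, h, C_0]
    rcases Nat.eq_zero_or_pos b with hb | hb
    · exact Or.inl (hunit P hP0 (hb ▸ hPb))
    rcases Nat.eq_zero_or_pos c with hc | hc
    · exact Or.inr (hunit Q hQ0 (hc ▸ hQc))
    exfalso
    set m : Ideal (MvPolynomial (Fin 3) k) :=
      RingHom.ker (constantCoeff : MvPolynomial (Fin 3) k →+* k) with hm
    have him : m.IsPrime := RingHom.ker_isPrime _
    set s : Finset (MvPolynomial (Fin 3) k) := {P, Q} with hs
    have hPs : P ∈ Ideal.span (s : Set (MvPolynomial (Fin 3) k)) :=
      Ideal.subset_span (by simp [hs])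
    have hQs : Q ∈ Ideal.span (s : Set (MvPolynomial (Fin 3) k)) :=
      Ideal.subset_span (by simp [hs])
    have hsm : Ideal.span (s : Set (MvPolynomial (Fin 3) k)) ≤ m := by
      rw [Ideal.span_le]
      intro f hf
      rw [hs, Finset.coe_insert, Finset.coe_singleton] at hf
      rcases hf with rfl | hf
      · exact const_homog hPb hb
      · rw [Set.mem_singleton_iff] at hf
        rw [hf]
        exact const_homog hQc hc
    have hX : ∀ i, (X i : MvPolynomial (Fin 3) k) ^ (e0 + 1) ∈
        Ideal.span (s : Set (MvPolynomial (Fin 3) k)) := by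
      intro i
      obtain ⟨a, -, ha⟩ := he0 (e0 + 1) (X i ^ (e0 + 1)) (by omega) (isHomogeneous_X_pow i _)
      rw [ha]
      refine Ideal.sum_mem _ fun j _ => Ideal.mul_mem_left _ _ ?_
      rw [pow_one, hPQ, Derivation.leibniz, smul_eq_mul, smul_eq_mul]
      exact Ideal.add_mem _ (Ideal.mul_mem_right _ _ hPs) (Ideal.mul_mem_right _ _ hQs)
    have hmin : m ∈ (Ideal.span (s : Set (MvPolynomial (Fin 3) k))).minimalPrimes := by
      refine ⟨⟨him, hsm⟩, ?_⟩
      rintro q ⟨hq, hsq⟩ -
      exact ker_le_of_X_mem fun i => hq.mem_of_pow_mem _ (hsq (hX i))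
    have h1 := Ideal.height_le_card_of_mem_minimalPrimes_span_finset hmin
    have h2 : s.card ≤ 2 := Finset.card_le_two
    have h3 : (3 : ℕ∞) ≤ ((2 : ℕ) : ℕ∞) :=
      (three_le_height (k := k)).trans (h1.trans (by exact_mod_cast h2))
    have h4 : (3 : ℕ) ≤ 2 := by exact_mod_cast h3
    omega

end Pool.Agent.H96.SM
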