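import Pool.Agent.H84.SM.Targets

/-!
# Row NUC of the board `smc_modules`: the dimension of the restrictions to the curve, numerically
-/

set_option autoImplicit false

namespace Pool.Agent.H96.SM

open Pool.Agent.H84.SM

/-- a polynomial of degree three is bounded by a multiple of the cube -/
theorem cubic_bound (a3 a2 a1 a0 : ℝ) : ∃ C : ℝ, ∀ m : ℕ, 1 ≤ m →
    a3 * (m : ℝ) ^ 3 + a2 * (m : ℝ) ^ 2 + a1 * m + a0 ≤ C * (m : ℝ) ^ 3 := by
  refine ⟨|a3| + |a2| + |a1| + |a0|, fun m hm => ?_⟩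
  have h1 : (1 : ℝ) ≤ m := by exact_mod_cast hm
  have h2 : (m : ℝ) ≤ (m : ℝ) ^ 3 := le_self_pow₀ h1 (by norm_num)
  have h3 : (m : ℝ) ^ 2 ≤ (m : ℝ) ^ 3 := pow_le_pow_right₀ h1 (by norm_num)
  have h4 : (1 : ℝ) ≤ (m : ℝ) ^ 3 := one_le_pow₀ h1
  have e3 : a3 * (m : ℝ) ^ 3 ≤ |a3| * (m : ℝ) ^ 3 :=
    mul_le_mul_of_nonneg_right (le_abs_self _) (by positivity)
  have e2 : a2 * (m : ℝ) ^ 2 ≤ |a2| * (m : ℝ) ^ 3 :=
    (mul_le_mul_of_nonneg_right (le_abs_self _) (by positivity)).trans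
      (mul_le_mul_of_nonneg_left h3 (abs_nonneg _))
  have e1 : a1 * (m : ℝ) ≤ |a1| * (m : ℝ) ^ 3 :=
    (mul_le_mul_of_nonneg_right (le_abs_self _) (by positivity)).trans
      (mul_le_mul_of_nonneg_left h2 (abs_nonneg _))
  have e0 : a0 ≤ |a0| * (m : ℝ) ^ 3 := by
    calc a0 ≤ |a0| := le_abs_self _
      _ = |a0| * 1 := (mul_one _).symm
      _ ≤ |a0| * (m : ℝ) ^ 3 := mul_le_mul_of_nonneg_left h4 (abs_nonneg _)
  nlinarith

/-- the dimension of the forms of degree `r` on the curve -/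
theorem sdim_le (d : ℕ) (hd : 3 ≤ d) (r : ℤ) :
    (sdim d r : ℝ) ≤ (d * (r : ℝ) + 1) + (if r < 0 then (d : ℝ) * (-(r : ℝ)) else 0) := by
  unfold sdim
  by_cases hr : r < 0
  · rw [if_pos hr, if_pos hr]
    push_cast
    linarith
  · rw [if_neg hr, if_neg hr]
    obtain ⟨s, rfl⟩ := Int.eq_ofNat_of_zero_le (not_lt.1 hr)
    have hs : (Int.ofNat s).toNat = s := rfl
    simp only [Int.toNat_natCast, Int.cast_natCast, add_zero]
    have h1 : (s + 2).choose 2 ≤ (s + 2 - d).choose 2 + (d * s + 1) := by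
      rcases lt_or_ge s d with h | h
      · have h2 : (s + 2).choose 2 ≤ d * s + 1 := by
          rw [Nat.choose_two_right]
          have h3 : s + 2 - 1 = s + 1 := by omega
          rw [h3]
          have h4 : (s + 2) * (s + 1) ≤ 2 * (d * s + 1) := by nlinarith
          omega
        omega
      · obtain ⟨v, rfl⟩ := Nat.exists_eq_add_of_le h
        have h3 : d + v + 2 - d = v + 2 := by omega
        rw [h3, Nat.choose_two_right, Nat.choose_two_right]
        have h4 : d + v + 2 - 1 = d + v + 1 := by omega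
        have h5 : v + 2 - 1 = v + 1 := by omega
        rw [h4, h5]
        have h6 : 2 ∣ (v + 2) * (v + 1) := by
          have := Nat.even_mul_succ_self (v + 1)
          rw [mul_comm]
          exact this.two_dvd
        have h8 : (d + v + 2) * (d + v + 1) ≤ (v + 2) * (v + 1) + 2 * (d * (d + v) + 1) := by
          nlinarith
        omega
    have h9 : (((s + 2).choose 2 - (s + 2 - d).choose 2 : ℕ) : ℝ) ≤ ((d * s + 1 : ℕ) : ℝ) := by
      exact_mod_cast (by omega : (s + 2).choose 2 - (s + 2 - d).choose 2 ≤ d * s + 1)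
    refine h9.trans (le_of_eq ?_)
    push_cast
    ring

theorem sum_lin (N : ℕ) (x y : ℝ) : ∑ b ∈ Finset.range N, (x + y * (b : ℝ)) =
    N * x + y * (N * (N - 1) / 2) := by
  induction N with
  | zero => simp
  | succ N ih =>
    rw [Finset.sum_range_succ, ih]
    push_cast
    ring

theorem sum_lin2 (q : ℕ) (α β Q : ℝ) : ∑ k ∈ Finset.range (q + 1),
    ((3 * (k : ℝ) + 1) * (α + β * (Q - k)) + β * ((3 * (k : ℝ) + 1) * (3 * k) / 2)) =
    (α + β * Q) * ((q + 1) * (3 * q + 2) / 2) - β * (q * (q + 1) ^ 2) +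
      β * (3 / 2 * (q * (q + 1) ^ 2)) := by
  induction q with
  | zero => simp
  | succ q ih =>
    rw [Finset.sum_range_succ, ih]
    push_cast
    ring

/-- the sum over `j` and `b` of a linear function of `b + j` -/
theorem sum_jb (q : ℕ) (α β : ℝ) : ∑ j ∈ Finset.range (q + 1),
    ∑ b ∈ Finset.range (3 * q - 3 * j + 1), (α + β * ((b : ℝ) + j)) =
    α * ((q + 1) * (3 * q + 2) / 2) + β * (q * (q + 1) * (4 * q + 3) / 2) := by
  have h1 : ∀ j ∈ Finset.range (q + 1), ∑ b ∈ Finset.range (3 * q - 3 * j + 1),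
      (α + β * ((b : ℝ) + j)) = (fun k : ℕ => (3 * (k : ℝ) + 1) * (α + β * ((q : ℝ) - k)) +
        β * ((3 * (k : ℝ) + 1) * (3 * k) / 2)) (q - j) := by
    intro j hj
    have hj1 : j ≤ q := by
      have := Finset.mem_range.1 hj
      omega
    obtain ⟨k, rfl⟩ := Nat.exists_eq_add_of_le hj1
    have h2 : 3 * (j + k) - 3 * j + 1 = 3 * k + 1 := by omega
    have h3 : j + k - j = k := by omega
    rw [h2, h3]
    have h4 : ∀ b ∈ Finset.range (3 * k + 1), α + β * ((b : ℝ) + j) =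
        (α + β * j) + β * (b : ℝ) := fun b _ => by ring
    rw [Finset.sum_congr rfl h4, sum_lin]
    push_cast
    ring
  rw [Finset.sum_congr rfl h1, Finset.sum_flip
    (fun k : ℕ => (3 * (k : ℝ) + 1) * (α + β * ((q : ℝ) - k)) +
        β * ((3 * (k : ℝ) + 1) * (3 * k) / 2)), sum_lin2]
  ring

theorem sum_ind (I a : ℕ) (f : ℕ → ℝ) (X : ℝ) (hX : 0 ≤ X) (h : ∀ i, f i ≤ X)
    (h0 : ∀ i, a ≤ i → f i ≤ 0) : ∑ i ∈ Finset.range I, f i ≤ a * X := by
  have h1 : ∀ i ∈ Finset.range I, f i ≤ if i < a then X else 0 := by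
    intro i _
    by_cases hi : i < a
    · rw [if_pos hi]
      exact h i
    · rw [if_neg hi]
      exact h0 i (not_lt.1 hi)
  refine (Finset.sum_le_sum h1).trans ?_
  rw [← Finset.sum_filter, Finset.sum_const, nsmul_eq_mul]
  refine mul_le_mul_of_nonneg_right ?_ hX
  have h2 : (Finset.range I).filter (fun i => i < a) ⊆ Finset.range a := by
    intro i hi
    exact Finset.mem_range.2 (Finset.mem_filter.1 hi).2
  have h3 := Finset.card_le_card h2
  rw [Finset.card_range] at h3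
  exact_mod_cast h3

theorem pf_NUC : T_NUC := by
  intro d e1 hd
  have hd0 : (5 : ℝ) ≤ d := by exact_mod_cast hd
  -- the coefficients
  set A : ℝ := d + 56 with hA
  set e : ℝ := (e1 : ℝ) with he
  set p2 : ℝ := 600 * (d : ℝ) ^ 2 with hp2
  set p1 : ℝ := 50 * (d : ℝ) with hp1
  set s3 : ℝ := 16000 * (d : ℝ) ^ 3 with hs3
  set s2 : ℝ := 1400 * (d : ℝ) ^ 2 with hs2
  set s1 : ℝ := 30 * (d : ℝ) with hs1
  set g2 : ℝ := -A * d ^ 2 * (d - 4) + d ^ 2 * A ^ 2 / 2 with hg2
  set g1 : ℝ := -e * d ^ 2 * (d - 4) + d ^ 2 * (2 * A * e + A) / 2 + A with hg1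
  set g0 : ℝ := (d : ℝ) ^ 2 * (e ^ 2 + e) / 2 + e with hg0
  obtain ⟨C, hC⟩ := cubic_bound (p2 * g1 + p1 * g2 + d * (d - 3) * (s3 * e + s2 * A))
    (p2 * g0 + p1 * g1 + g2 + d * (d - 3) * (s2 * e + s1 * A))
    (p1 * g0 + g1 + d * (d - 3) * s1 * e) g0
  refine ⟨C, fun m hm => ?_⟩
  have hCm := hC m hm
  have hm1 : (1 : ℝ) ≤ m := by exact_mod_cast hm
  set I : ℕ := (d + 56) * m + e1 with hI
  set t : ℕ := (d - 4) * d * m with ht
  have htR : (t : ℝ) = (d - 4) * d * m := by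
    rw [ht]
    push_cast [Nat.cast_sub (show 4 ≤ d by omega)]
    ring
  have hIR : (I : ℝ) = A * m + e := by
    rw [hI, hA, he]
    push_cast
    ring
  -- the bound for one term
  have hn : 60 * d * m = 3 * (20 * d * m) := by ring
  have hn3 : 60 * d * m / 3 = 20 * d * m := by
    rw [hn]
    exact Nat.mul_div_cancel_left _ (by norm_num)
  have hterm : ∀ i j b : ℕ, (sdim d (-(t : ℤ) + ((i : ℤ) + 1) * d + ((b : ℤ) + j) * ((d : ℤ) - 3)) : ℝ) ≤
      ((d * (-(t : ℝ) + ((i : ℝ) + 1) * d) + 1) + (d * ((d : ℝ) - 3)) * ((b : ℝ) + j)) +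
        (if i < (d - 4) * m ∧ j < d * m ∧ b < d * m then (d : ℝ) * t else 0) := by
    intro i j b
    refine (sdim_le d (by omega) _).trans ?_
    refine add_le_add (le_of_eq ?_) ?_
    · push_cast
      ring
    · set r : ℤ := -(t : ℤ) + ((i : ℤ) + 1) * d + ((b : ℤ) + j) * ((d : ℤ) - 3) with hr
      by_cases hr0 : r < 0
      · rw [if_pos hr0]
        have hd4 : ((d - 4 : ℕ) : ℤ) = (d : ℤ) - 4 := by omega
        have htZ : (t : ℤ) = ((d : ℤ) - 4) * d * m := by
          rw [ht]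
          push_cast [hd4]
          ring
        have hdz : (5 : ℤ) ≤ d := by exact_mod_cast hd
        have hb0 : (0 : ℤ) ≤ (b : ℤ) := Int.natCast_nonneg _
        have hj0 : (0 : ℤ) ≤ (j : ℤ) := Int.natCast_nonneg _
        have hi0 : (0 : ℤ) ≤ (i : ℤ) := Int.natCast_nonneg _
        have hm0 : (0 : ℤ) ≤ (m : ℤ) := Int.natCast_nonneg _
        have hA1 : 0 ≤ ((b : ℤ) + j) * ((d : ℤ) - 3) := mul_nonneg (by omega) (by omega)
        have hA2 : 0 ≤ ((i : ℤ) + 1) * d := mul_nonneg (by omega) (by omega)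
        have hi1 : i < (d - 4) * m := by
          have h1 : ((i : ℤ) + 1) * d < (((d : ℤ) - 4) * m) * d := by
            rw [hr, htZ] at hr0
            nlinarith
          have h2 : (i : ℤ) + 1 < ((d : ℤ) - 4) * m := lt_of_mul_lt_mul_right h1 (by omega)
          have h3 : ((((d - 4) * m : ℕ)) : ℤ) = ((d : ℤ) - 4) * m := by
            push_cast [hd4]
            ring
          omega
        have hbj : (b : ℤ) + j < d * m := by
          have h1 : ((b : ℤ) + j) * ((d : ℤ) - 3) < (d * m) * ((d : ℤ) - 3) := by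
            rw [hr, htZ] at hr0
            nlinarith [mul_nonneg (show (0 : ℤ) ≤ d by omega) hm0]
          exact lt_of_mul_lt_mul_right h1 (by omega)
        have hj1 : j < d * m := by
          have : (j : ℤ) < ((d * m : ℕ) : ℤ) := by push_cast; omega
          exact_mod_cast this
        have hb1 : b < d * m := by
          have : (b : ℤ) < ((d * m : ℕ) : ℤ) := by push_cast; omega
          exact_mod_cast this
        rw [if_pos ⟨hi1, hj1, hb1⟩]
        refine mul_le_mul_of_nonneg_left ?_ (by positivity)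
        have h4 : -r ≤ (t : ℤ) := by
          rw [hr]
          omega
        exact_mod_cast h4
      · rw [if_neg hr0]
        by_cases h : i < (d - 4) * m ∧ j < d * m ∧ b < d * m
        · rw [if_pos h]
          positivity
        · rw [if_neg h]
  -- summation
  have hsum : ((∑ i ∈ Finset.range I, cb d (60 * d * m) (-(t : ℤ) + ((i : ℤ) + 1) * d) : ℕ) : ℝ) ≤
      (∑ i ∈ Finset.range I, ∑ j ∈ Finset.range (20 * d * m + 1),
        ∑ b ∈ Finset.range (3 * (20 * d * m) - 3 * j + 1),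
          ((d * (-(t : ℝ) + ((i : ℝ) + 1) * d) + 1) + (d * ((d : ℝ) - 3)) * ((b : ℝ) + j))) +
      ∑ i ∈ Finset.range I, ∑ j ∈ Finset.range (20 * d * m + 1),
        ∑ b ∈ Finset.range (3 * (20 * d * m) - 3 * j + 1),
          (if i < (d - 4) * m ∧ j < d * m ∧ b < d * m then (d : ℝ) * t else 0) := by
    rw [← Finset.sum_add_distrib, Nat.cast_sum]
    refine Finset.sum_le_sum fun i _ => ?_
    unfold cb
    rw [hn3, hn, Nat.cast_sum, ← Finset.sum_add_distrib]
    refine Finset.sum_le_sum fun j _ => ?_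
    rw [Nat.cast_sum, ← Finset.sum_add_distrib]
    exact Finset.sum_le_sum fun b _ => hterm i j b
  refine hsum.trans ?_
  have hX0 : (0 : ℝ) ≤ (d : ℝ) * t := by positivity
  have hsecond : (∑ i ∈ Finset.range I, ∑ j ∈ Finset.range (20 * d * m + 1),
        ∑ b ∈ Finset.range (3 * (20 * d * m) - 3 * j + 1),
          (if i < (d - 4) * m ∧ j < d * m ∧ b < d * m then (d : ℝ) * t else 0)) ≤
      (((d - 4) * m : ℕ) : ℝ) * (((d * m : ℕ) : ℝ) * (((d * m : ℕ) : ℝ) * ((d : ℝ) * t))) := by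
    refine sum_ind I _ _ _ (by positivity) (fun i => ?_) (fun i hi => ?_)
    · refine sum_ind _ _ _ _ (by positivity) (fun j => ?_) (fun j hj => ?_)
      · refine sum_ind _ _ _ _ (by positivity) (fun b => ?_) (fun b hb => ?_)
        · split_ifs
          · exact le_rfl
          · exact hX0
        · rw [if_neg (fun h => absurd h.2.2 (not_lt.2 hb))]
      · refine Finset.sum_nonpos fun b _ => ?_
        rw [if_neg (fun h => absurd h.2.1 (not_lt.2 hj))]
    · refine Finset.sum_nonpos fun j _ => Finset.sum_nonpos fun b _ => ?_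
      rw [if_neg (fun h => absurd h.1 (not_lt.2 hi))]
  have hfirst : (∑ i ∈ Finset.range I, ∑ j ∈ Finset.range (20 * d * m + 1),
        ∑ b ∈ Finset.range (3 * (20 * d * m) - 3 * j + 1),
          ((d * (-(t : ℝ) + ((i : ℝ) + 1) * d) + 1) + (d * ((d : ℝ) - 3)) * ((b : ℝ) + j))) =
      (I * (d * (-(t : ℝ) + d) + 1) + d * d * (I * ((I : ℝ) - 1) / 2)) *
        ((20 * d * m + 1) * (3 * (20 * d * m) + 2) / 2) +
      I * ((d * ((d : ℝ) - 3)) *
        ((20 * d * m) * (20 * d * m + 1) * (4 * (20 * d * m) + 3) / 2)) := by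
    have h1 : ∀ i ∈ Finset.range I, (∑ j ∈ Finset.range (20 * d * m + 1),
        ∑ b ∈ Finset.range (3 * (20 * d * m) - 3 * j + 1),
          ((d * (-(t : ℝ) + ((i : ℝ) + 1) * d) + 1) + (d * ((d : ℝ) - 3)) * ((b : ℝ) + j))) =
        ((d * (-(t : ℝ) + d) + 1) * ((20 * d * m + 1) * (3 * (20 * d * m) + 2) / 2) +
          (d * ((d : ℝ) - 3)) *
            ((20 * d * m) * (20 * d * m + 1) * (4 * (20 * d * m) + 3) / 2)) +
        (d * d * ((20 * d * m + 1) * (3 * (20 * d * m) + 2) / 2)) * (i : ℝ) := by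
      intro i _
      rw [sum_jb]
      push_cast
      ring
    rw [Finset.sum_congr rfl h1, sum_lin]
    ring
  rw [hfirst]
  have hd4R : ((((d - 4) * m : ℕ)) : ℝ) = (d - 4) * m := by
    push_cast [Nat.cast_sub (show 4 ≤ d by omega)]
    ring
  rw [hd4R] at hsecond
  rw [htR] at hsecond ⊢
  rw [hIR]
  push_cast at hsecond
  have hfin : ((A * m + e) * (d * (-((d - 4) * d * m) + d) + 1) +
      d * d * ((A * m + e) * (A * m + e - 1) / 2)) *
        ((20 * d * m + 1) * (3 * (20 * d * m) + 2) / 2) +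
      (A * m + e) * ((d * ((d : ℝ) - 3)) *
        ((20 * d * m) * (20 * d * m + 1) * (4 * (20 * d * m) + 3) / 2)) =
      (54 * (1 - (((d : ℝ) - 4) / 60) ^ 2) + 48 * (d - 3) * (1 + ((d : ℝ) - 4) / 60)) / 648 *
        (60 * d * m) ^ 4 +
      ((p2 * g1 + p1 * g2 + d * (d - 3) * (s3 * e + s2 * A)) * (m : ℝ) ^ 3 +
      (p2 * g0 + p1 * g1 + g2 + d * (d - 3) * (s2 * e + s1 * A)) * (m : ℝ) ^ 2 +
      (p1 * g0 + g1 + d * (d - 3) * s1 * e) * m + g0) := by
    rw [hg2, hg1, hg0, hp2, hp1, hs3, hs2, hs1, hA]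
    ring
  rw [hfin]
  have hsec2 : ((d : ℝ) - 4) * m * (d * m * (d * m * (d * ((d - 4) * d * m)))) =
      (d - 4) ^ 2 * (d : ℝ) ^ 4 * (m : ℝ) ^ 4 := by ring
  rw [hsec2] at hsecond
  linarith

end Pool.Agent.H96.SM
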